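import Pool.Agent.Helper62.GR.Final

set_option autoImplicit false

namespace Pool.Agent.Results.MP_08df5f_al.GrigorchukAscendingHNN

open Pool.Agent.Helper62.WB Pool.Agent.Helper62.GR Pool.Agent.Helper11.PS

/-- Let `Gri` be the first Grigorchuk group.
(1) If `Gri` is embedded in a residually finite group `Q` and `t ∈ Q` conjugates `Gri` into itself, then
`t` normalises `Gri`, and some power `t^j`, `j ≥ 1`, induces an inner automorphism of `Gri`
(`NoProperConj`).
(2) The ascending HNN extension of `Gri` along an injective endomorphism `σ` is residually finite if and
only if `σ` is surjective.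
(3) A residually finite finitely presented group has no subgroup of finite index which is an ascending
HNN extension of `Gri` (`NoAsc`).
(4) If `G` is finitely presented, amenable and stable (or very flexibly stable) in permutations and `N`
a normal subgroup, finitely generated as a group, then no subgroup of finite index of `G ⧸ N` is an
ascending HNN extension of `Gri`. -/
theorem result :
    (∀ (Q : Type) [Group Q], RF Q → NoProperConj Q) ∧
    (∀ (σ : Gri →* Gri) (hσ : Function.Injective σ), RF (Asc σ hσ) ↔ Function.Surjective σ) ∧
    (∀ (Q : Type) [Group Q], RF Q → FP Q → NoAsc Q) ∧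
    (∀ (G : Type) [Group G], Amen G → (VStable G ∨ StableS G) → FP G →
      ∀ (N : Subgroup G) [N.Normal], N.FG → NoAsc (G ⧸ N)) :=
  main

end Pool.Agent.Results.MP_08df5f_al.GrigorchukAscendingHNN
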