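import Pool.Agent.Helper47.KN.Final

set_option autoImplicit false

namespace Pool.Agent.Results.MP_08df5f_al.KneadingAscendingHNN

open Pool.Agent.Helper62.WB Pool.Agent.Helper62.GR Pool.Agent.Helper11.PS Pool.Agent.Helper47.KN

/-- Let `Γ = Kn v` be the kneading group of the sequence `v` of period `n + 2` (for example the Basilica
group).
(1) If `σ` is an injective endomorphism of `Γ` and the ascending HNN extension `Γ_σ` is residually
finite, then it is not finitely presented.
(2) No subgroup of finite index of a residually finite finitely presented group is an ascending HNN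
extension of `Γ` (`NoAscK`).
(3) If `G` is finitely presented, amenable and stable (or very flexibly stable) in permutations and `N`
a normal subgroup, finitely generated as a group, then no subgroup of finite index of `G ⧸ N` is an
ascending HNN extension of `Γ`.
(4) If `v` is constant and `k ≥ 1`, there is an injective endomorphism `σ` of `Γ`, not surjective, with
`σ a_i = a_i ^ (2 k + 1)` for all `i`, for which `Γ_σ` is residually finite. -/
theorem result : ∀ (n : ℕ) (v : ZMod (n + 2) → Bool),
    (∀ (σ : Kn v →* Kn v) (hσ : Function.Injective σ), RF (Asc σ hσ) → ¬ FP (Asc σ hσ)) ∧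
    (∀ (Q : Type) [Group Q], RF Q → FP Q → NoAscK v Q) ∧
    (∀ (G : Type) [Group G], Amen G → (VStable G ∨ StableS G) → FP G →
      ∀ (N : Subgroup G) [N.Normal], N.FG → NoAscK v (G ⧸ N)) ∧
    ((∀ i, v i = v 0) → ∀ k : ℕ, 1 ≤ k → ∃ (σ : Kn v →* Kn v) (hσ : Function.Injective σ),
      (∀ i, σ (gen v i) = gen v i ^ (2 * k + 1)) ∧ RF (Asc σ hσ) ∧ ¬ Function.Surjective σ) :=
  main

end Pool.Agent.Results.MP_08df5f_al.KneadingAscendingHNN
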