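import Pool.Agent.Helper62.WB.Final

set_option autoImplicit false

namespace Pool.Agent.Results.MP_08df5f_al.RFAscendingHNN

open Pool.Agent.Helper62.WB

/-- Let `Γ` be a finitely generated weakly branch group on a rooted tree and `σ` an injective
endomorphism of `Γ`.  The ascending HNN extension `Q = ⟨Γ, t | t γ t⁻¹ = σ γ⟩` is residually finite if
and only if `σ Γ` and `Γ` induce the same permutations on every level of the tree.  In this case the
centraliser `C` of `Γ` in `Q` is normal in `Q`, it is trivial or infinite cyclic, and `Q ⧸ C` is a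
weakly branch group. -/
theorem result (T : RTree) (Γ : Type) [Group Γ] (a : TAct T Γ) (ha : a.WeaklyBranch)
    (hfg : Group.FG Γ) (σ : Γ →* Γ) (hσ : Function.Injective σ) :
    (RF (Asc σ hσ) ↔ a.Dense σ) ∧
    (a.Dense σ → ∃ C : Subgroup (Asc σ hσ), ∃ _ : C.Normal,
      C = Subgroup.centralizer ((HNNExtension.of : Γ →* Asc σ hσ).range : Set (Asc σ hσ)) ∧
      (∃ z, C = Subgroup.zpowers z) ∧ (∀ q ∈ C, q ≠ 1 → ¬ IsOfFinOrder q) ∧
      IsWB (Asc σ hσ ⧸ C)) :=
  main.2 T Γ a ha hfg σ hσ

end Pool.Agent.Results.MP_08df5f_al.RFAscendingHNN
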