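import Pool.Agent.Helper11.PS.MainV

set_option autoImplicit false

namespace Pool.Agent.Results.MP_08df5f_al.StableAscendingHNN

open Pool.Agent.Helper62.WB Pool.Agent.Helper11.PS

/-- Let `G` be an amenable group which is very flexibly stable in permutations, `N` a normal subgroup,
finitely generated as a group, and let `Γ` be a weakly branch group on a rooted tree.
(1) If `Γ` is embedded in `G ⧸ N` and `t` conjugates a subgroup `H` of finite index of `Γ` into `Γ`
(the map `σ`), then on every level of the tree the group induced by `σ H` has index at most `[Γ : H]` in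
the group induced by `Γ`.
(2) If `H = Γ`, then `σ Γ` and `Γ` induce the same permutations on every level.
(3) If `G ⧸ N` is isomorphic to the ascending HNN extension `⟨Γ, t | t γ t⁻¹ = σ γ⟩`, then moreover, if
`Γ` is finitely generated and `G` is finitely presented, `G` has a normal subgroup `M ≥ N` such that
`G ⧸ M` is a finitely presented weakly branch group.  (`VStable`: very flexible stability for finitely
generated groups, implied by stability `Stable`; `StableS`: the definition for finitely presented groups
in the frozen statement `S00663`.) -/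
theorem result (G : Type) [Group G] (hG : Amen G) (hS : VStable G ∨ StableS G)
    (N : Subgroup G) [N.Normal] (hN : N.FG) (T : RTree) (Γ : Type) [Group Γ] (a : TAct T Γ)
    (ha : a.WeaklyBranch) :
    (∀ i : Γ →* G ⧸ N, Function.Injective i → ∀ (H : Subgroup Γ) [H.FiniteIndex] (σ : H →* Γ)
      (t : G ⧸ N), (∀ h : H, t * i (h : Γ) * t⁻¹ = i (σ h)) →
      ∀ n, ((a.act n).comp σ).range.relIndex (a.act n).range ≤ H.index) ∧
    (∀ i : Γ →* G ⧸ N, Function.Injective i → ∀ (σ : Γ →* Γ) (t : G ⧸ N),
      (∀ g : Γ, t * i g * t⁻¹ = i (σ g)) → a.Dense σ) ∧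
    (∀ (σ : Γ →* Γ) (hσ : Function.Injective σ), Nonempty (G ⧸ N ≃* Asc σ hσ) →
      a.Dense σ ∧ (Group.FG Γ → FP G → ∃ M : Subgroup G, ∃ _ : M.Normal, N ≤ M ∧
        FP (G ⧸ M) ∧ IsWB (G ⧸ M))) :=
  mainW G hG hS N hN T Γ a ha

end Pool.Agent.Results.MP_08df5f_al.StableAscendingHNN
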